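import Mathlib

/-!
# An equistable graph that is not weakly CIS

The graph is the complement of the line graph of a triangle-free graph `H` with nine vertices and fourteen edges.
-/

namespace Pool.Agent.Results.MP_59918e_co.EquistableNotWeaklyCIS

open Finset

/-- `G` is equistable: there are nonnegative weights on the vertices such that the maximal stable sets are
exactly the sets of total weight `1`. -/
def Equistable {V : Type} [Fintype V] (G : SimpleGraph V) : Prop :=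
  ∃ φ : V → ℝ, (∀ v, 0 ≤ φ v) ∧
    ∀ S : Finset V,
      Maximal (fun T : Finset V => G.IsIndepSet (T : Set V)) S ↔ ∑ v ∈ S, φ v = 1

/-- `G` is weakly CIS: there are an edge covering family `C` of maximal cliques and a non-edge covering family
`S` of maximal stable sets that are cross-intersecting. -/
def WeaklyCIS {V : Type} [Fintype V] (G : SimpleGraph V) : Prop :=
  ∃ C S : Set (Finset V),
    (∀ K ∈ C, Maximal (fun T : Finset V => G.IsClique (T : Set V)) K) ∧
    (∀ I ∈ S, Maximal (fun T : Finset V => G.IsIndepSet (T : Set V)) I) ∧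
    (∀ u v, G.Adj u v → ∃ K ∈ C, u ∈ K ∧ v ∈ K) ∧
    (∀ u v, u ≠ v → ¬ G.Adj u v → ∃ I ∈ S, u ∈ I ∧ v ∈ I) ∧
    (∀ K ∈ C, ∀ I ∈ S, ∃ x, x ∈ K ∧ x ∈ I)

/-- First endpoints of the edges of `H`. -/
def p : Fin 14 → Fin 9 := ![5, 2, 5, 1, 3, 1, 3, 0, 2, 4, 4, 0, 0, 0]

/-- Second endpoints of the edges of `H`. -/
def q : Fin 14 → Fin 9 := ![8, 3, 7, 6, 8, 5, 6, 2, 7, 7, 6, 4, 8, 1]

/-- The weights, to be divided by `198`. -/
def w : Fin 14 → ℕ := ![43, 59, 51, 92, 91, 104, 48, 29, 110, 37, 58, 103, 64, 2]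

/-- The graph: two edges of `H` are adjacent when they are disjoint. -/
def G : SimpleGraph (Fin 14) where
  Adj e f := p e ≠ p f ∧ p e ≠ q f ∧ q e ≠ p f ∧ q e ≠ q f
  symm := ⟨fun _ _ h => ⟨h.1.symm, h.2.2.1.symm, h.2.1.symm, h.2.2.2.symm⟩⟩
  loopless := ⟨fun _ h => h.1 rfl⟩

instance : DecidableRel G.Adj := fun e f =>
  inferInstanceAs (Decidable (p e ≠ p f ∧ p e ≠ q f ∧ q e ≠ p f ∧ q e ≠ q f))

/-- The star of a vertex of `H`. -/
def star (v : Fin 9) : Finset (Fin 14) := univ.filter (fun e => p e = v ∨ q e = v)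

lemma star_indep (v : Fin 9) : G.IsIndepSet (star v : Set (Fin 14)) := by
  intro e he f hf _ hadj
  rw [mem_coe, star, mem_filter] at he hf
  replace he := he.2
  replace hf := hf.2
  obtain ⟨h1, h2, h3, h4⟩ := hadj
  rcases he with he | he <;> rcases hf with hf | hf <;> simp_all

lemma dec1 : ∀ v : Fin 9, ∀ x : Fin 14, x ∉ star v → ∃ e ∈ star v, G.Adj e x := by decide +kernel

lemma star_max (v : Fin 9) : Maximal (fun T : Finset (Fin 14) => G.IsIndepSet (T : Set (Fin 14))) (star v) := by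
  refine ⟨star_indep v, ?_⟩
  intro T hT hle x hx
  by_contra hxs
  obtain ⟨e, he, hadj⟩ := dec1 v x hxs
  exact hT (hle he) hx hadj.ne hadj

lemma dec2 : ∀ e f g : Fin 14, ¬ G.Adj e f → ¬ G.Adj e g → ¬ G.Adj f g →
    f ∉ star (p e) → g ∉ star (q e) → False := by decide +kernel

lemma mem_star_p (e : Fin 14) : e ∈ star (p e) := by simp [star]

lemma sub_star {S : Finset (Fin 14)} (hS : G.IsIndepSet (S : Set (Fin 14))) : ∃ v, S ⊆ star v := by
  have hna : ∀ e ∈ S, ∀ f ∈ S, ¬ G.Adj e f := fun e he f hf hadj => hS he hf hadj.ne hadj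
  rcases S.eq_empty_or_nonempty with rfl | ⟨e, he⟩
  · exact ⟨0, by simp⟩
  by_cases h1 : S ⊆ star (p e)
  · exact ⟨_, h1⟩
  by_cases h2 : S ⊆ star (q e)
  · exact ⟨_, h2⟩
  rw [Finset.not_subset] at h1 h2
  obtain ⟨f, hf, hf'⟩ := h1
  obtain ⟨g, hg, hg'⟩ := h2
  exact (dec2 e f g (hna e he f hf) (hna e he g hg) (hna f hf g hg) hf' hg').elim

lemma max_is_star {S : Finset (Fin 14)}
    (hS : Maximal (fun T : Finset (Fin 14) => G.IsIndepSet (T : Set (Fin 14))) S) : ∃ v, S = star v := by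
  obtain ⟨v, hv⟩ := sub_star hS.1
  exact ⟨v, le_antisymm hv (hS.2 (star_indep v) hv)⟩

lemma sum_star : ∀ v, ∑ e ∈ star v, w e = 198 := by decide +kernel

lemma dec3 : ∀ b0 b1 b2 b3 b4 b5 b6 b7 b8 b9 b10 b11 b12 b13 : Bool,
    (bif b0 then 43 else 0) + (bif b1 then 59 else 0) + (bif b2 then 51 else 0) + (bif b3 then 92 else 0)
    + (bif b4 then 91 else 0) + (bif b5 then 104 else 0) + (bif b6 then 48 else 0) + (bif b7 then 29 else 0)
    + (bif b8 then 110 else 0) + (bif b9 then 37 else 0) + (bif b10 then 58 else 0)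
    + (bif b11 then 103 else 0) + (bif b12 then 64 else 0) + (bif b13 then 2 else 0) = 198 →
    ∃ v : Fin 9, ∀ e : Fin 14,
      (![b0, b1, b2, b3, b4, b5, b6, b7, b8, b9, b10, b11, b12, b13] e = true ↔ e ∈ star v) := by
  decide +kernel

lemma sum_eq {S : Finset (Fin 14)} (h : ∑ e ∈ S, w e = 198) : ∃ v, S = star v := by
  have key := dec3 (decide ((0 : Fin 14) ∈ S)) (decide ((1 : Fin 14) ∈ S)) (decide ((2 : Fin 14) ∈ S))
    (decide ((3 : Fin 14) ∈ S)) (decide ((4 : Fin 14) ∈ S)) (decide ((5 : Fin 14) ∈ S))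
    (decide ((6 : Fin 14) ∈ S)) (decide ((7 : Fin 14) ∈ S)) (decide ((8 : Fin 14) ∈ S))
    (decide ((9 : Fin 14) ∈ S)) (decide ((10 : Fin 14) ∈ S)) (decide ((11 : Fin 14) ∈ S))
    (decide ((12 : Fin 14) ∈ S)) (decide ((13 : Fin 14) ∈ S))
  have h2 : ∑ e ∈ S, w e = ∑ e : Fin 14, (if e ∈ S then w e else 0) := by
    rw [Finset.sum_ite_mem]; simp
  rw [h2] at h
  have h3 : ∑ e : Fin 14, (if e ∈ S then w e else 0) =
    (bif (decide ((0 : Fin 14) ∈ S)) then 43 else 0) + (bif (decide ((1 : Fin 14) ∈ S)) then 59 else 0)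
    + (bif (decide ((2 : Fin 14) ∈ S)) then 51 else 0) + (bif (decide ((3 : Fin 14) ∈ S)) then 92 else 0)
    + (bif (decide ((4 : Fin 14) ∈ S)) then 91 else 0) + (bif (decide ((5 : Fin 14) ∈ S)) then 104 else 0)
    + (bif (decide ((6 : Fin 14) ∈ S)) then 48 else 0) + (bif (decide ((7 : Fin 14) ∈ S)) then 29 else 0)
    + (bif (decide ((8 : Fin 14) ∈ S)) then 110 else 0) + (bif (decide ((9 : Fin 14) ∈ S)) then 37 else 0)
    + (bif (decide ((10 : Fin 14) ∈ S)) then 58 else 0) + (bif (decide ((11 : Fin 14) ∈ S)) then 103 else 0)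
    + (bif (decide ((12 : Fin 14) ∈ S)) then 64 else 0)
    + (bif (decide ((13 : Fin 14) ∈ S)) then 2 else 0) := by
    simp only [Bool.cond_decide]
    simp only [Fin.sum_univ_castSucc, Fin.sum_univ_zero, zero_add]
    rfl
  rw [h3] at h
  obtain ⟨v, hv⟩ := key h
  refine ⟨v, ?_⟩
  ext e
  rw [← hv e]
  fin_cases e <;> simp

/-- The graph is equistable. -/
lemma equistable_G : Equistable G := by
  refine ⟨fun v => (w v : ℝ) / 198, fun v => by positivity, ?_⟩
  intro S
  have hsum : (∑ v ∈ S, (w v : ℝ) / 198 = 1) ↔ ∑ v ∈ S, w v = 198 := by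
    rw [← Finset.sum_div, div_eq_one_iff_eq (by norm_num)]
    rw [← Nat.cast_sum]
    exact_mod_cast Iff.rfl
  rw [hsum]
  constructor
  · intro h
    obtain ⟨v, rfl⟩ := max_is_star h
    exact sum_star v
  · intro h
    obtain ⟨v, rfl⟩ := sum_eq h
    exact star_max v

lemma dec4 : ∀ v : Fin 9, ∃ e f : Fin 14, e ≠ f ∧ ¬ G.Adj e f ∧ ∀ u : Fin 9, e ∈ star u → f ∈ star u → u = v := by
  decide +kernel

lemma dec5 : ∀ e : Fin 14, (univ.filter (fun v : Fin 9 => e ∈ star v)).card = 2 := by decide +kernel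

lemma dec6 : ∀ v : Fin 9, ∀ e ∈ star v, ∀ f ∈ star v, ¬ G.Adj e f := by decide +kernel

/-- The graph is not weakly CIS. -/
lemma not_weaklyCIS_G : ¬ WeaklyCIS G := by
  rintro ⟨C, S, hC, hS, hcC, hcS, hX⟩
  have hstar : ∀ v, star v ∈ S := by
    intro v
    obtain ⟨e, f, hne, hadj, huniq⟩ := dec4 v
    obtain ⟨I, hI, he, hf⟩ := hcS e f hne hadj
    obtain ⟨u, rfl⟩ := max_is_star (hS I hI)
    rw [← huniq u he hf]
    exact hI
  obtain ⟨K, hK, _, _⟩ := hcC 0 1 (by decide +kernel)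
  have hcl := (hC K hK).1
  have hone : ∀ v, (K.filter (fun e => e ∈ star v)).card = 1 := by
    intro v
    obtain ⟨x, hxK, hxs⟩ := hX K hK (star v) (hstar v)
    rw [Finset.card_eq_one]
    refine ⟨x, ?_⟩
    ext y
    rw [mem_filter, mem_singleton]
    constructor
    · rintro ⟨hyK, hys⟩
      by_contra hne
      exact dec6 v y hys x hxs (hcl hyK hxK hne)
    · rintro rfl
      exact ⟨hxK, hxs⟩
  have hdc : ∑ v : Fin 9, (K.filter (fun e => e ∈ star v)).card
      = ∑ e ∈ K, (univ.filter (fun v : Fin 9 => e ∈ star v)).card := by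
    simp only [Finset.card_filter]
    rw [Finset.sum_comm]
  simp only [hone, dec5] at hdc
  simp only [sum_const, card_univ, Fintype.card_fin, smul_eq_mul, mul_one] at hdc
  omega

/-- There is a finite simple graph, with fourteen vertices, that is equistable but not weakly CIS. -/
theorem result : ∃ G : SimpleGraph (Fin 14), Equistable G ∧ ¬ WeaklyCIS G :=
  ⟨G, equistable_G, not_weaklyCIS_G⟩

end Pool.Agent.Results.MP_59918e_co.EquistableNotWeaklyCIS
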