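import Mathlib

/-!
# A strongly equistable graph that is not weakly CIS

Let `H` be the triangle-free graph on the eleven vertices `0, …, 10` with the seventeen edges
`03, 05, 06, 13, 14, 15, 26, 29, 2-10, 37, 46, 48, 59, 5-10, 78, 79, 8-10`, and let `G` be the
complement of the line graph of `H`. The maximal stable sets of `G` are the eleven stars of `H`.

* The seven weightings in `wt` below, divided by `400`, give total weight `1` to every star. The
  first one gives total weight `1` to no other set of edges, and a nonempty set of edges which is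
  not a star and has total weight at most `1` has not the same weight in all seven weightings. So
  `G` is equistable, and strongly equistable.
* Two edges of `H` that meet lie together in only one star, so every family of maximal stable sets
  of `G` that covers all pairs of distinct non-adjacent vertices consists of all eleven stars. A
  clique of `G` meeting every star would be a perfect matching of `H`, which has an odd number of
  vertices. So `G` is not weakly CIS.
-/

set_option autoImplicit false
set_option maxRecDepth 100000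

open Finset

namespace Pool.Agent.Results.MP_59918e_co.NotWeaklyCIS

/-- `S` is a maximal stable set of `G`: its vertices are pairwise non-adjacent and no other stable
set properly contains it. -/
def MaxStable {V : Type} (G : SimpleGraph V) (S : Finset V) : Prop :=
  Maximal (fun S : Finset V => G.IsIndepSet (S : Set V)) S

/-- `C` is a maximal clique of `G`. -/
def MaxClique {V : Type} (G : SimpleGraph V) (C : Finset V) : Prop :=
  Maximal (fun C : Finset V => G.IsClique (C : Set V)) C

/-- `G` is equistable: some nonnegative vertex weighting gives total weight `1` to exactly the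
maximal stable sets. -/
def Equistable {V : Type} (G : SimpleGraph V) : Prop :=
  ∃ φ : V → ℝ, (∀ x, 0 ≤ φ x) ∧ ∀ S : Finset V, MaxStable G S ↔ ∑ x ∈ S, φ x = 1

/-- `G` is strongly equistable: for each nonempty set `T` of vertices that is not a maximal stable
set and each real `γ ≤ 1`, some positive vertex weighting gives total weight `1` to each maximal
stable set and a total weight different from `γ` to `T`. -/
def StronglyEquistable {V : Type} (G : SimpleGraph V) : Prop :=
  ∀ T : Finset V, T.Nonempty → ¬ MaxStable G T → ∀ γ : ℝ, γ ≤ 1 →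
    ∃ φ : V → ℝ, (∀ x, 0 < φ x) ∧ (∀ S : Finset V, MaxStable G S → ∑ x ∈ S, φ x = 1) ∧
      ∑ x ∈ T, φ x ≠ γ

/-- `G` is weakly CIS: there are a family `𝒞` of maximal cliques such that any two adjacent
vertices lie together in a member of `𝒞`, and a family `𝒮` of maximal stable sets such that any
two distinct non-adjacent vertices lie together in a member of `𝒮`, with `C ∩ S ≠ ∅` for all
`C ∈ 𝒞` and `S ∈ 𝒮`. -/
def WeaklyCIS {V : Type} (G : SimpleGraph V) : Prop :=
  ∃ 𝒞 𝒮 : Set (Finset V),
    (∀ C ∈ 𝒞, MaxClique G C) ∧ (∀ S ∈ 𝒮, MaxStable G S) ∧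
    (∀ x y, G.Adj x y → ∃ C ∈ 𝒞, x ∈ C ∧ y ∈ C) ∧
    (∀ x y, x ≠ y → ¬ G.Adj x y → ∃ S ∈ 𝒮, x ∈ S ∧ y ∈ S) ∧
    ∀ C ∈ 𝒞, ∀ S ∈ 𝒮, ∃ x, x ∈ C ∧ x ∈ S

/-! ### The example -/

/-- One endpoint of each edge of `H`. -/
def ea : Fin 17 → Fin 11 := ![0, 0, 0, 1, 1, 1, 2, 2, 2, 3, 4, 4, 5, 5, 7, 7, 8]

/-- The other endpoint of each edge of `H`. -/
def eb : Fin 17 → Fin 11 := ![3, 5, 6, 3, 4, 5, 6, 9, 10, 7, 6, 8, 9, 10, 8, 9, 10]

/-- The edge `i` of `H` ends in the vertex `v`. -/
def inc (v : Fin 11) (i : Fin 17) : Bool := decide (ea i = v) || decide (eb i = v)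

/-- The star of a vertex of `H`. -/
def star (v : Fin 11) : Finset (Fin 17) := univ.filter (fun i => inc v i = true)

/-- The complement of the line graph of `H`. -/
def G : SimpleGraph (Fin 17) where
  Adj i j := i ≠ j ∧ ∀ v, ¬ (inc v i = true ∧ inc v j = true)
  symm := ⟨fun _ _ h => ⟨h.1.symm, fun v hv => h.2 v hv.symm⟩⟩
  loopless := ⟨fun _ h => h.1 rfl⟩

instance : DecidableRel G.Adj := fun i j =>
  inferInstanceAs (Decidable (i ≠ j ∧ ∀ v, ¬ (inc v i = true ∧ inc v j = true)))

/-- Seven weightings of the edges of `H`. -/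
def wt : Fin 7 → Fin 17 → ℕ := ![
  ![147, 75, 178, 156, 197, 47, 105, 177, 118, 97, 117, 86, 115, 163, 195, 108, 119],
  ![148, 74, 178, 155, 197, 48, 105, 177, 118, 97, 117, 86, 115, 163, 195, 108, 119],
  ![148, 74, 178, 155, 198, 47, 106, 176, 118, 97, 116, 86, 116, 163, 195, 108, 119],
  ![148, 74, 178, 155, 198, 47, 106, 177, 117, 97, 116, 86, 115, 164, 195, 108, 119],
  ![148, 75, 177, 156, 197, 47, 105, 177, 118, 96, 118, 85, 115, 163, 196, 108, 119],
  ![148, 75, 177, 156, 197, 47, 106, 176, 118, 96, 117, 86, 115, 163, 195, 109, 119],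
  ![148, 75, 177, 155, 198, 47, 106, 177, 117, 97, 117, 85, 115, 163, 195, 108, 120]]

/-- Total weight of the chosen entries. -/
def dot : List ℕ → List Bool → ℕ
  | a :: ws, b :: l => (if b = true then a else 0) + dot ws l
  | _, _ => 0

/-- Checks `P` for every choice of entries of total weight at most `T`. -/
def chk : List ℕ → ℕ → (List Bool → Bool) → Bool
  | [], _, P => P []
  | a :: ws, T, P =>
    (chk ws T fun l => P (false :: l)) &&
      (if a ≤ T then chk ws (T - a) (fun l => P (true :: l)) else true)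

theorem chk_spec : ∀ (ws : List ℕ) (T : ℕ) (P : List Bool → Bool), chk ws T P = true →
    ∀ l : List Bool, l.length = ws.length → dot ws l ≤ T → P l = true
  | [], T, P, h, l, hl, hd => by
    have hl' : l = [] := by simpa using hl
    subst hl'
    simpa [chk] using h
  | a :: ws, T, P, h, l, hl, hd => by
    match l, hl, hd with
    | [], hl, _ => simp at hl
    | b :: l, hl, hd =>
      have hl' : l.length = ws.length := by simpa using hl
      rw [chk, Bool.and_eq_true] at h
      cases b with
      | false =>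
        exact chk_spec ws T _ h.1 l hl' (by simpa [dot] using hd)
      | true =>
        have hd' : a + dot ws l ≤ T := by simpa [dot] using hd
        have haT : a ≤ T := by omega
        have h2 := h.2
        rw [if_pos haT] at h2
        exact chk_spec ws (T - a) _ h2 l hl' (by omega)

theorem chk_true : chk (List.ofFn (wt 0)) 400
    (fun l => decide (l = List.ofFn (fun _ : Fin 17 => false) ∨
      (∃ v : Fin 11, l = List.ofFn (inc v)) ∨
      (dot (List.ofFn (wt 0)) l ≠ 400 ∧
        ∃ j : Fin 7, dot (List.ofFn (wt j)) l ≠ dot (List.ofFn (wt 0)) l))) = true := by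
  decide +kernel

theorem dot_eq (w : Fin 17 → ℕ) (f : Fin 17 → Bool) :
    dot (List.ofFn w) (List.ofFn f) = ∑ i, if f i = true then w i else 0 := by
  simp only [List.ofFn_succ, List.ofFn_zero, dot, Fin.sum_univ_succ]
  simp

theorem dot_mem (w : Fin 17 → ℕ) (S : Finset (Fin 17)) :
    dot (List.ofFn w) (List.ofFn fun i => decide (i ∈ S)) = ∑ i ∈ S, w i := by
  rw [dot_eq, ← Finset.sum_filter]
  congr 1
  ext i
  simp

theorem key (S : Finset (Fin 17)) (h : ∑ i ∈ S, wt 0 i ≤ 400) :
    S = ∅ ∨ (∃ v, S = star v) ∨ (∑ i ∈ S, wt 0 i ≠ 400 ∧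
      ∃ j, ∑ i ∈ S, wt j i ≠ ∑ i ∈ S, wt 0 i) := by
  have h1 := chk_spec _ _ _ chk_true (List.ofFn fun i => decide (i ∈ S)) (by simp) (by
    rwa [dot_mem])
  rcases of_decide_eq_true h1 with hv | ⟨v, hv⟩ | ⟨h2, j, hj⟩
  · left
    have hv' := List.ofFn_injective hv
    ext i
    simpa using congrFun hv' i
  · right; left
    refine ⟨v, ?_⟩
    have hv' := List.ofFn_injective hv
    ext i
    have := congrFun hv' i
    simp only [star, mem_filter, mem_univ, true_and]
    rw [← this]
    simp
  · right; right
    rw [dot_mem] at h2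
    rw [dot_mem, dot_mem] at hj
    exact ⟨h2, j, hj⟩

theorem weight_star : ∀ j v, ∑ i ∈ star v, wt j i = 400 := by decide +kernel

theorem wt_pos : ∀ j i, 0 < wt j i := by decide +kernel

/-- Pairwise intersecting edges of `H` have a common vertex. -/
theorem triple : ∀ i j k : Fin 17, i ≠ j → ∀ v, inc v i = true → inc v j = true →
    (∃ u, inc u i = true ∧ inc u k = true) → (∃ u, inc u j = true ∧ inc u k = true) →
    inc v k = true := by
  decide +kernel

theorem star_stable (v : Fin 11) : G.IsIndepSet ((star v : Finset (Fin 17)) : Set (Fin 17)) := by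
  intro i hi j hj _ hadj
  have hi' : inc v i = true := by simpa [star] using hi
  have hj' : inc v j = true := by simpa [star] using hj
  exact hadj.2 v ⟨hi', hj'⟩

theorem not_adj {i j : Fin 17} (hne : i ≠ j) (h : ¬ G.Adj i j) :
    ∃ v, inc v i = true ∧ inc v j = true := by
  by_contra hc
  exact h ⟨hne, fun v hv => hc ⟨v, hv⟩⟩

theorem exists_inc (i : Fin 17) : inc (ea i) i = true := by simp [inc]

theorem stable_sub_star (S : Finset (Fin 17)) (h : G.IsIndepSet (S : Set (Fin 17))) :
    ∃ v, S ⊆ star v := by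
  rcases S.eq_empty_or_nonempty with rfl | ⟨i, hi⟩
  · exact ⟨0, by simp⟩
  by_cases hS : ∃ j ∈ S, i ≠ j
  · obtain ⟨j, hj, hij⟩ := hS
    obtain ⟨v, hvi, hvj⟩ := not_adj hij (h hi hj hij)
    refine ⟨v, fun k hk => ?_⟩
    simp only [star, mem_filter, mem_univ, true_and]
    refine triple i j k hij v hvi hvj ?_ ?_
    · by_cases hik : i = k
      · subst hik; exact ⟨v, hvi, hvi⟩
      · exact not_adj hik (h hi hk hik)
    · by_cases hjk : j = k
      · subst hjk; exact ⟨v, hvj, hvj⟩
      · exact not_adj hjk (h hj hk hjk)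
  · push Not at hS
    refine ⟨ea i, fun k hk => ?_⟩
    rw [← hS k hk]
    simp only [star, mem_filter, mem_univ, true_and]
    exact exists_inc i

theorem star_sub : ∀ u v : Fin 11, star u ⊆ star v → u = v := by decide +kernel

theorem maxStable_iff (S : Finset (Fin 17)) : MaxStable G S ↔ ∃ v, S = star v := by
  constructor
  · intro h
    obtain ⟨v, hv⟩ := stable_sub_star S h.1
    exact ⟨v, le_antisymm hv (h.2 (star_stable v) hv)⟩
  · rintro ⟨v, rfl⟩
    refine ⟨star_stable v, fun T hT hle => ?_⟩
    obtain ⟨u, hu⟩ := stable_sub_star T hT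
    have : v = u := star_sub v u (le_trans hle hu)
    subst this
    exact hu

theorem star_nonempty : ∀ v : Fin 11, (star v).Nonempty := by decide +kernel

theorem equistable : Equistable G := by
  refine ⟨fun i => (wt 0 i : ℝ) / 400, fun i => by positivity, fun S => ?_⟩
  rw [maxStable_iff, ← Finset.sum_div, div_eq_one_iff_eq (by norm_num), ← Nat.cast_sum]
  constructor
  · rintro ⟨v, rfl⟩
    rw [weight_star]
    norm_num
  · intro h
    have h' : ∑ i ∈ S, wt 0 i = 400 := by exact_mod_cast h
    rcases key S h'.le with rfl | h1 | h1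
    · simp at h'
    · exact h1
    · exact absurd h' h1.1

theorem stronglyEquistable : StronglyEquistable G := by
  intro T hT hTm γ hγ
  have hφ : ∀ j, (∀ i, 0 < (wt j i : ℝ) / 400) ∧
      ∀ S : Finset (Fin 17), MaxStable G S → ∑ i ∈ S, (wt j i : ℝ) / 400 = 1 := by
    intro j
    refine ⟨fun i => ?_, fun S hS => ?_⟩
    · have : (0 : ℝ) < wt j i := by exact_mod_cast wt_pos j i
      positivity
    · obtain ⟨v, rfl⟩ := (maxStable_iff S).1 hS
      rw [← Finset.sum_div, ← Nat.cast_sum, weight_star]
      norm_num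
  by_contra hcon
  push Not at hcon
  have hall : ∀ j, ∑ i ∈ T, (wt j i : ℝ) / 400 = γ := fun j =>
    hcon _ (hφ j).1 (hφ j).2
  have heq : ∀ j, ∑ i ∈ T, wt j i = ∑ i ∈ T, wt 0 i := by
    intro j
    have := (hall j).trans (hall 0).symm
    rw [← Finset.sum_div, ← Finset.sum_div, ← Nat.cast_sum, ← Nat.cast_sum,
      div_left_inj' (by norm_num)] at this
    exact_mod_cast this
  have hle : ∑ i ∈ T, wt 0 i ≤ 400 := by
    have := hall 0
    rw [← Finset.sum_div, ← Nat.cast_sum, div_eq_iff (by norm_num)] at this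
    have h2 : ((∑ i ∈ T, wt 0 i : ℕ) : ℝ) ≤ 400 := by rw [this]; linarith
    exact_mod_cast h2
  rcases key T hle with rfl | h1 | ⟨-, j, hj⟩
  · exact hT.ne_empty rfl
  · exact hTm ((maxStable_iff T).2 h1)
  · exact hj (heq j)

/-- In each star there are two edges that lie together in no other star. -/
theorem two_edges : ∀ v : Fin 11, ∃ i j : Fin 17, i ≠ j ∧ inc v i = true ∧ inc v j = true ∧
    ∀ u, inc u i = true → inc u j = true → u = v := by
  decide +kernel

/-- Every family of maximal stable sets covering all pairs of distinct non-adjacent vertices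
contains every star. -/
theorem star_mem (𝒮 : Set (Finset (Fin 17))) (h1 : ∀ S ∈ 𝒮, MaxStable G S)
    (h2 : ∀ x y, x ≠ y → ¬ G.Adj x y → ∃ S ∈ 𝒮, x ∈ S ∧ y ∈ S) (v : Fin 11) : star v ∈ 𝒮 := by
  obtain ⟨i, j, hij, hi, hj, hu⟩ := two_edges v
  obtain ⟨S, hS, hiS, hjS⟩ := h2 i j hij (fun h => h.2 v ⟨hi, hj⟩)
  obtain ⟨u, rfl⟩ := (maxStable_iff S).1 (h1 S hS)
  have : u = v := hu u (by simpa [star] using hiS) (by simpa [star] using hjS)
  rwa [this] at hS

theorem two_ends : ∀ i : Fin 17, #{v : Fin 11 | inc v i = true} = 2 := by decide +kernel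

/-- No clique of `G` meets every star. -/
theorem no_strong_clique (C : Finset (Fin 17)) (hC : G.IsClique (C : Set (Fin 17)))
    (h : ∀ v, ∃ x, x ∈ C ∧ x ∈ star v) : False := by
  have h1 : ∀ v, #{i ∈ C | inc v i = true} = 1 := by
    intro v
    obtain ⟨x, hxC, hxv⟩ := h v
    rw [Finset.card_eq_one]
    refine ⟨x, ?_⟩
    ext i
    simp only [mem_filter, mem_singleton]
    have hxv' : inc v x = true := by simpa [star] using hxv
    constructor
    · rintro ⟨hiC, hi⟩
      by_contra hne
      exact (hC hiC hxC hne).2 v ⟨hi, hxv'⟩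
    · rintro rfl
      exact ⟨hxC, hxv'⟩
  have h2 : ∑ v : Fin 11, #{i ∈ C | inc v i = true} =
      ∑ i ∈ C, #{v : Fin 11 | inc v i = true} := by
    simp only [Finset.card_filter]
    rw [Finset.sum_comm]
  rw [Finset.sum_congr rfl (fun v _ => h1 v), Finset.sum_congr rfl (fun i _ => two_ends i)] at h2
  simp at h2
  omega

theorem adj_exists : G.Adj 3 1 := by decide +kernel

theorem not_weaklyCIS : ¬ WeaklyCIS G := by
  rintro ⟨𝒞, 𝒮, hC, hS, hCc, hSc, hCS⟩
  obtain ⟨C, hC1, -, -⟩ := hCc 3 1 adj_exists
  exact no_strong_clique C (hC C hC1).1 fun v => hCS C hC1 _ (star_mem 𝒮 hS hSc v)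

/-- **Equistable graphs need not be weakly CIS.** There is a finite simple graph (on seventeen
vertices) which is equistable, and even strongly equistable, but not weakly CIS. -/
theorem result : ∃ G : SimpleGraph (Fin 17),
    Equistable G ∧ StronglyEquistable G ∧ ¬ WeaklyCIS G :=
  ⟨G, equistable, stronglyEquistable, not_weaklyCIS⟩

end Pool.Agent.Results.MP_59918e_co.NotWeaklyCIS
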